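import Mathlib
import Pool.Agent.R291.RMW.W6
import Pool.Agent.R528.RM.Sp6
import Pool.Agent.R528.RM.Sp4

set_option autoImplicit false

/-!
# Brocard's problem in random models of the primes

Brocard's conjecture says that at least four primes lie between the squares of consecutive primes
`p_n, p_(n+1)`, `n ≥ 2`.  We study the members of a random set between squares, for EVERY sequential
random model of the primes: the integers are decided one after the other, only integers coprime to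
a fixed `Q` can be chosen, and the conditional probability of choosing `n + 1` (coprime to `Q`)
given the past is asymptotic to `(Q / φ(Q)) / log n`; no independence is assumed.
-/

open MeasureTheory Filter
open scoped Topology

namespace Pool.Agent.Results.MP_739ba1_nt.BrocardInRandomModels

/-- the number of elements of `S` strictly between `s²` and `t²` -/
noncomputable def between (S : Set ℕ) (s t : ℕ) : ℕ := Set.ncard {m : ℕ | m ∈ S ∧ s ^ 2 < m ∧ m < t ^ 2}

/-- the sum over `s² < m < t²` of the conditional probabilities of `A m` given `ℱ (m - 1)` -/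
noncomputable def condSum {Ω : Type} {mΩ : MeasurableSpace Ω} (μ : Measure Ω) (ℱ : Filtration ℕ mΩ)
    (A : ℕ → Set Ω) (s t : ℕ) (ω : Ω) : ℝ :=
  ∑ m ∈ Finset.Ioo (s ^ 2) (t ^ 2), (μ[(A m).indicator (fun _ => (1 : ℝ)) | ℱ (m - 1)]) ω

/-- `q < q'` are consecutive elements of `S` -/
def Consecutive (S : Set ℕ) (q q' : ℕ) : Prop := q ∈ S ∧ q' ∈ S ∧ q < q' ∧ ∀ m, q < m → m < q' → m ∉ S

open Pool.Agent.R528.RM Pool.Agent.R291.RMW

lemma Ioo_eq (s t : ℕ) : Finset.Ioo (s ^ 2) (t ^ 2) = sqw s t := by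
  ext m
  unfold sqw
  rw [Finset.mem_Ioo, Finset.mem_Ioc]
  omega

lemma between_eq {Ω : Type} {A : ℕ → Set Ω} {ω : Ω} {s t : ℕ} :
    (between {k | ω ∈ A k} s t : ℝ) = Ncl A (sqw s t) ω := by
  rw [Ncl_eq, ← Ioo_eq]
  unfold between
  congr 2
  ext m
  simp only [Set.mem_ofPred_eq, Finset.mem_Ioo]

lemma condSum_eq {Ω : Type} {mΩ : MeasurableSpace Ω} {μ : Measure Ω} {ℱ : Filtration ℕ mΩ}
    {A : ℕ → Set Ω} {ω : Ω} {s t : ℕ} : condSum μ ℱ A s t ω = VS μ ℱ A (sqw s t) ω := by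
  unfold condSum VS
  rw [Ioo_eq]
  refine Finset.sum_congr rfl fun m hm => ?_
  have := (Finset.mem_Ioc.1 hm).1
  unfold dens
  rw [show m - 1 + 1 = m by omega]

lemma diff_eq {Ω : Type} {mΩ : MeasurableSpace Ω} {μ : Measure Ω} [IsProbabilityMeasure μ] {ℱ : Filtration ℕ mΩ}
    {A : ℕ → Set Ω} {ω : Ω} {s t : ℕ} :
    (between {k | ω ∈ A k} s t : ℝ) - condSum μ ℱ A s t ω = CS μ ℱ A (sqw s t) ω := by
  rw [between_eq, condSum_eq, CS_eq]

/-- gaps are small -/
lemma gap_small {Ω : Type} {mΩ : MeasurableSpace Ω} {μ : Measure Ω} [IsProbabilityMeasure μ]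
    {ℱ : Filtration ℕ mΩ} {A : ℕ → Set Ω} (hA : ∀ n, MeasurableSet[ℱ n] (A n)) {W : ℕ} (hW : 0 < W)
    (hd : ∀ᵐ ω ∂μ, ∀ ε : ℝ, 0 < ε → ∀ᶠ n : ℕ in atTop, |dens μ ℱ A n ω - rhoW W (n + 1)| ≤ ε * rhoW W (n + 1)) :
    ∀ᵐ ω ∂μ, ∀ᶠ q : ℕ in atTop, ∀ q', Consecutive {k | ω ∈ A k} q q' → (q' : ℝ) ≤ q + Real.log q ^ 3 := by
  obtain ⟨κ, hκ, h⟩ := many_in_window (μ := μ) (ℱ := ℱ) hA hW hd (show (1 : ℝ) < 2 by norm_num)
  filter_upwards [h] with ω hω
  filter_upwards [hω, ev_log 2] with q g1 g2 q' ⟨_, _, _, hno⟩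
  by_contra hcon
  push Not at hcon
  have hl : 0 ≤ Real.log (q : ℝ) := by linarith
  have h1 : ((⌊2 * Real.log (q : ℝ) ^ 2⌋₊ : ℕ) : ℝ) ≤ 2 * Real.log q ^ 2 := Nat.floor_le (by positivity)
  have h2 : (2 : ℝ) * Real.log (q : ℝ) ^ 2 ≤ Real.log q ^ 3 := by nlinarith [sq_nonneg (Real.log (q : ℝ))]
  have h3 : q + ⌊2 * Real.log (q : ℝ) ^ 2⌋₊ < q' := by
    have : ((q + ⌊2 * Real.log (q : ℝ) ^ 2⌋₊ : ℕ) : ℝ) < q' := by
      push_cast
      linarith
    exact_mod_cast this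
  have h4 : cnt A q ⌊2 * Real.log (q : ℝ) ^ 2⌋₊ ω = 0 := by
    rw [cnt_eq_ncard]
    have : {a : ℕ | ω ∈ A a ∧ q < a ∧ a ≤ q + ⌊2 * Real.log (q : ℝ) ^ 2⌋₊} = ∅ := by
      ext a
      simp only [Set.mem_ofPred_eq, Set.mem_empty_iff_false, iff_false]
      rintro ⟨a1, a2, a3⟩
      exact hno a a2 (by omega) a1
    rw [this, Set.ncard_empty]
  rw [h4] at g1
  have : 0 < κ * Real.log (q : ℝ) := by
    have : 0 < Real.log (q : ℝ) := by linarith
    positivity
  push_cast at g1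
  linarith

/-- the logarithm of the primes -/
lemma log_prime : Tendsto (fun n : ℕ => Real.log (Nat.nth Nat.Prime n) / Real.log n) atTop (𝓝 1) := by
  have h0 : Tendsto (fun n : ℕ => (Nat.nth Nat.Prime n : ℝ) / ((n + 1 : ℕ) * Real.log ((n + 1 : ℕ) : ℝ))) atTop (𝓝 1) := by
    have := nth_prime_asymp.comp (tendsto_add_atTop_nat 1)
    refine this.congr fun n => ?_
    simp only [Function.comp, Nat.add_sub_cancel]
  have hup : Tendsto (fun n : ℕ => 1 + (Real.log 2 + 2 * Real.log (Real.log n + 1)) / Real.log n + 2 * Real.log 2 / Real.log n) atTop (𝓝 1) := by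
    have h1 : Tendsto (fun n : ℕ => Real.log (Real.log n + 1) / Real.log n) atTop (𝓝 0) := by
      have h2 : Tendsto (fun x : ℝ => Real.log x / x) atTop (𝓝 0) := Real.isLittleO_log_id_atTop.tendsto_div_nhds_zero
      have h3 : Tendsto (fun n : ℕ => Real.log n + 1) atTop atTop := tendsto_log.atTop_add tendsto_const_nhds
      have h4 := h2.comp h3
      have h5 : Tendsto (fun n : ℕ => (Real.log n + 1) / Real.log n) atTop (𝓝 1) := by
        have h6 : Tendsto (fun n : ℕ => 1 + 1 / Real.log (n : ℝ)) atTop (𝓝 (1 + 0)) := (tendsto_log.const_div_atTop 1).const_add 1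
        rw [add_zero] at h6
        refine h6.congr' ?_
        filter_upwards [tendsto_log.eventually_gt_atTop 0] with n hn
        field_simp
      have h7 := h4.mul h5
      rw [zero_mul] at h7
      refine h7.congr' ?_
      filter_upwards [tendsto_log.eventually_gt_atTop 0] with n hn
      simp only [Function.comp]
      field_simp
    have h2 : Tendsto (fun n : ℕ => Real.log 2 / Real.log n) atTop (𝓝 0) := tendsto_log.const_div_atTop _
    have h3 := ((h2.add (h1.const_mul 2)).const_add 1).add (h2.const_mul 2)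
    have e : (1 : ℝ) + (0 + 2 * 0) + 2 * 0 = 1 := by norm_num
    rw [e] at h3
    refine h3.congr fun n => ?_
    ring
  refine tendsto_of_tendsto_of_tendsto_of_le_of_le' tendsto_const_nhds hup ?_ ?_
  · filter_upwards [tendsto_log.eventually_gt_atTop 0, eventually_gt_atTop 0] with n g1 g2
    rw [le_div_iff₀ g1, one_mul]
    have h1 : n ≤ Nat.nth Nat.Prime n := (Nat.nth_strictMono Nat.infinite_setOfPred_prime).id_le n
    exact Real.log_le_log (by exact_mod_cast g2) (by exact_mod_cast h1)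
  · filter_upwards [tendsto_log.eventually_gt_atTop 0, eventually_gt_atTop 0, h0.eventually (eventually_lt_nhds (show (1 : ℝ) < 2 by norm_num))]
      with n g1 g2 g3
    have hn : (1 : ℝ) ≤ n := by exact_mod_cast g2
    have hln : 0 < Real.log ((n + 1 : ℕ) : ℝ) := Real.log_pos (by push_cast; linarith)
    rw [div_lt_iff₀ (by positivity)] at g3
    have hp : (0 : ℝ) < Nat.nth Nat.Prime n := by
      exact_mod_cast (Nat.prime_nth_prime n).pos
    have h1 : ((n + 1 : ℕ) : ℝ) ≤ 2 * n := by push_cast; linarith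
    have h2 : Real.log ((n + 1 : ℕ) : ℝ) ≤ Real.log n + 1 := by
      have := Real.log_le_log (by positivity) h1
      rw [Real.log_mul (by norm_num) (by linarith)] at this
      have := Real.log_two_lt_d9
      linarith
    have h3 : (Nat.nth Nat.Prime n : ℝ) ≤ 4 * n * (Real.log n + 1) := by
      refine g3.le.trans ?_
      have : ((n + 1 : ℕ) : ℝ) * Real.log ((n + 1 : ℕ) : ℝ) ≤ (2 * n) * (Real.log n + 1) := mul_le_mul h1 h2 hln.le (by positivity)
      linarith
    have h4 := Real.log_le_log hp h3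
    rw [Real.log_mul (by positivity) (by positivity), Real.log_mul (by norm_num) (by positivity)] at h4
    have h5 : Real.log 4 = 2 * Real.log 2 := by
      rw [show (4 : ℝ) = 2 ^ 2 by norm_num, Real.log_pow]
      norm_num
    rw [h5] at h4
    have h6 : 0 ≤ Real.log (Real.log n + 1) := Real.log_nonneg (by linarith)
    have h7 : 0 < Real.log 2 := Real.log_pos (by norm_num)
    rw [div_le_iff₀ g1]
    have e : (1 + (Real.log 2 + 2 * Real.log (Real.log n + 1)) / Real.log n + 2 * Real.log 2 / Real.log n) * Real.log n =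
      Real.log n + (Real.log 2 + 2 * Real.log (Real.log n + 1)) + 2 * Real.log 2 := by
      field_simp
    rw [e]
    linarith

end Pool.Agent.Results.MP_739ba1_nt.BrocardInRandomModels

open Pool.Agent.Results.MP_739ba1_nt.BrocardInRandomModels

/-- Let `A n` be the event that `n` belongs to a random set `S` adapted to a filtration `ℱ`, let
`Q ≥ 1`, let no integer which is not coprime to `Q` be chosen, and let the conditional probability of
`A (n + 1)` given `ℱ n`, times `log n`, tend to `Q / φ(Q)` along the `n` with `n + 1` coprime to `Q`,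
almost surely.  Let `N(s,t)` be the number of elements of `S` strictly between `s²` and `t²` and
`C(s,t)` the sum of the conditional probabilities over these integers.
(1) Almost surely, for all `K` and `ε > 0`, all large `s` and all `t` with `s < t ≤ s + (log s)^K`:
`|N(s,t) - C(s,t)| ≤ (1 + ε) √(t² - s²)`.
(2) Almost surely, for all `ε > 0` and all large consecutive elements `q < q'` of `S` itself:
`|N(q,q') - C(q,q')| ≤ (1 + ε) √(q'² - q²)` and `N(q,q') = (1 + O(ε)) (q'² - q²) / (2 log q)`; in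
particular `N(q,q') ≥ 4`.
(3) For every strictly increasing sequence `t` of natural numbers with `log t_n / log n → κ > 0`,
almost surely, for every `ε > 0`: `|N(t_n,t_(n+1)) - C(t_n,t_(n+1))|` is at most
`(1 + ε) √((t_(n+1)² - t_n²) / κ)` for all large `n`, and for all large `j` some `n` in
`(2^j, 2^(j+1)]` satisfies `N(t_n,t_(n+1)) ≥ C(t_n,t_(n+1)) + (1 - ε) √((t_(n+1)² - t_n²) / κ)`.
(4) The sequence of all primes satisfies the hypothesis of (3) with `κ = 1`. -/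
theorem Pool.Agent.Results.MP_739ba1_nt.BrocardInRandomModels.result
    {Ω : Type} [mΩ : MeasurableSpace Ω] (μ : Measure Ω) [IsProbabilityMeasure μ]
    (ℱ : Filtration ℕ mΩ) (A : ℕ → Set Ω) (hA : ∀ n, MeasurableSet[ℱ n] (A n))
    (Q : ℕ) (hQ : 0 < Q) (hcop : ∀ n, ¬ Nat.Coprime n Q → A n = ∅)
    (hd : ∀ᵐ ω ∂μ, Tendsto (fun n : ℕ =>
      (μ[(A (n + 1)).indicator (fun _ => (1 : ℝ)) | ℱ n]) ω * Real.log n)
      (atTop ⊓ 𝓟 {n : ℕ | Nat.Coprime (n + 1) Q}) (𝓝 ((Q : ℝ) / Nat.totient Q))) :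
    (∀ᵐ ω ∂μ, ∀ K : ℕ, ∀ ε : ℝ, 0 < ε → ∀ᶠ s : ℕ in atTop, ∀ t : ℕ, s < t → (t : ℝ) ≤ s + Real.log s ^ K →
      |(between {k | ω ∈ A k} s t : ℝ) - condSum μ ℱ A s t ω| ≤ (1 + ε) * √((t : ℝ) ^ 2 - (s : ℝ) ^ 2)) ∧
    (∀ᵐ ω ∂μ, ∀ ε : ℝ, 0 < ε → ∀ᶠ q : ℕ in atTop, ∀ q' : ℕ, Consecutive {k | ω ∈ A k} q q' →
      |(between {k | ω ∈ A k} q q' : ℝ) - condSum μ ℱ A q q' ω| ≤ (1 + ε) * √((q' : ℝ) ^ 2 - (q : ℝ) ^ 2) ∧
      |(between {k | ω ∈ A k} q q' : ℝ) - ((q' : ℝ) ^ 2 - (q : ℝ) ^ 2) / (2 * Real.log q)| ≤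
        ε * (((q' : ℝ) ^ 2 - (q : ℝ) ^ 2) / (2 * Real.log q)) ∧
      4 ≤ between {k | ω ∈ A k} q q') ∧
    (∀ (t : ℕ → ℕ) (κ : ℝ), StrictMono t → 0 < κ →
      Tendsto (fun n : ℕ => Real.log (t n) / Real.log n) atTop (𝓝 κ) →
      ∀ᵐ ω ∂μ, ∀ ε : ℝ, 0 < ε →
        (∀ᶠ n : ℕ in atTop,
          |(between {k | ω ∈ A k} (t n) (t (n + 1)) : ℝ) - condSum μ ℱ A (t n) (t (n + 1)) ω| ≤
            (1 + ε) * √(((t (n + 1) : ℝ) ^ 2 - (t n : ℝ) ^ 2) / κ)) ∧
        (∀ᶠ j : ℕ in atTop, ∃ n : ℕ, 2 ^ j < n ∧ n ≤ 2 ^ (j + 1) ∧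
          condSum μ ℱ A (t n) (t (n + 1)) ω + (1 - ε) * √(((t (n + 1) : ℝ) ^ 2 - (t n : ℝ) ^ 2) / κ) ≤
            between {k | ω ∈ A k} (t n) (t (n + 1)))) ∧
    (StrictMono (Nat.nth Nat.Prime) ∧
      Tendsto (fun n : ℕ => Real.log (Nat.nth Nat.Prime n) / Real.log n) atTop (𝓝 1)) := by
  have hprof := Pool.Agent.R528.RM.dens_profile (μ := μ) (ℱ := ℱ) hA Q hQ hcop hd
  have h1 : ∀ᵐ ω ∂μ, ∀ K : ℕ, ∀ ε : ℝ, 0 < ε → ∀ᶠ s : ℕ in atTop, ∀ t : ℕ, s < t → (t : ℝ) ≤ s + Real.log s ^ K →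
      |(between {k | ω ∈ A k} s t : ℝ) - condSum μ ℱ A s t ω| ≤ (1 + ε) * √((t : ℝ) ^ 2 - (s : ℝ) ^ 2) := by
    filter_upwards [ae_all_iff.2 fun K => Pool.Agent.R291.RMW.sq_upper (μ := μ) (ℱ := ℱ) hA hQ hprof K] with ω h K ε hε
    filter_upwards [h K ε hε] with s hs t hst ht
    rw [diff_eq]
    exact hs t hst ht
  refine ⟨h1, ?_, ?_, Nat.nth_strictMono Nat.infinite_setOfPred_prime, log_prime⟩
  · filter_upwards [h1, gap_small (μ := μ) (ℱ := ℱ) hA hQ hprof, Pool.Agent.R291.RMW.sq_count (μ := μ) (ℱ := ℱ) hA hQ hprof 3]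
      with ω g1 g2 g3 ε hε
    filter_upwards [g1 3 ε hε, g2, g3 ε hε, g3 (1 / 2) (by norm_num), Pool.Agent.R528.RM.ev_log 1, eventually_ge_atTop 1,
      (Pool.Agent.R291.RMW.lin_log_top one_pos).eventually_ge_atTop 8] with q k1 k2 k3 k4 k5 k6 k7 q' hq'
    have hlt := hq'.2.2.1
    have k8 := k4 q' hlt (k2 q' hq')
    refine ⟨k1 q' hlt (k2 q' hq'), by rw [between_eq]; exact k3 q' hlt (k2 q' hq'), ?_⟩
    rw [← between_eq] at k8
    have k9 := (abs_le.1 k8).1
    have hq1 : (1 : ℝ) ≤ q := by exact_mod_cast k6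
    have hlt' : (q : ℝ) + 1 ≤ q' := by exact_mod_cast hlt
    have hD : 2 * (q : ℝ) ≤ (q' : ℝ) ^ 2 - (q : ℝ) ^ 2 := by nlinarith
    have hl : 0 < Real.log (q : ℝ) := by linarith
    have hE : (8 : ℝ) ≤ ((q' : ℝ) ^ 2 - (q : ℝ) ^ 2) / (2 * Real.log q) := by
      rw [le_div_iff₀ (by positivity)]
      rw [le_div_iff₀ (by positivity)] at k7
      nlinarith
    have : (4 : ℝ) ≤ between {k | ω ∈ A k} q q' := by linarith
    exact_mod_cast this
  · intro t κ ht hκ hlog
    filter_upwards [Pool.Agent.R291.RMW.seq_law (μ := μ) (ℱ := ℱ) hA hQ hprof ht hκ hlog] with ω h ε hε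
    constructor
    · filter_upwards [(h ε hε).1] with n hn
      rw [diff_eq]
      exact hn
    · filter_upwards [(h ε hε).2] with j ⟨n, g1, g2, g3⟩
      refine ⟨n, g1, g2, ?_⟩
      rw [← diff_eq] at g3
      linarith
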