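import Mathlib
import Pool.Agent.R463.One
import Pool.Agent.Y879.GL.Pattern

set_option autoImplicit false

/-!
# The gap laws for almost primes between consecutive prime squares

Sifting by the primes up to a small power of the prime `q`: between the squares of `q` and of the next prime,
and in all parts of this interval of length at least `q ^ θ`, the remaining integers (which include all the
primes) have the expected number and follow each other as in a Poisson process.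
-/

namespace Pool.Agent.Results.MP_739ba1_nt.GapLaws

open Finset Filter
open Pool.Agent.R463.PS

/-- `m` has no prime factor `p ≤ X ^ (1 / r)` -/
def Good (X r m : ℕ) : Prop := ∀ p : ℕ, p.Prime → (p : ℝ) ≤ (X : ℝ) ^ (1 / (r : ℝ)) → ¬ p ∣ m

/-- the density: the product of `1 - 1 / p` over the primes `p ≤ X ^ (1 / r)` -/
noncomputable def V (X r : ℕ) : ℝ :=
  ∏ p ∈ (Icc 1 ⌊(X : ℝ) ^ (1 / (r : ℝ))⌋₊).filter Nat.Prime, (1 - 1 / (p : ℝ))

lemma good_iff (X r m : ℕ) : Good X r m ↔ Sifted idf X r m := (idf_sift X r m).symm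

lemma V_eq (X r : ℕ) : V X r = V1 X r := rfl

/-- the primes `p > X` are good -/
lemma good_prime {X r p : ℕ} (hX : 1 ≤ X) (hr : 1 ≤ r) (hp : p.Prime) (hXp : X < p) : Good X r p := by
  intro q hq hqX hd
  have h1 : q = p := (Nat.prime_dvd_prime_iff_eq hq hp).1 hd
  have hX1 : (1 : ℝ) ≤ X := by exact_mod_cast hX
  have hr1 : (1 : ℝ) ≤ r := by exact_mod_cast hr
  have h2 : (X : ℝ) ^ (1 / (r : ℝ)) ≤ X := by
    calc (X : ℝ) ^ (1 / (r : ℝ)) ≤ (X : ℝ) ^ (1 : ℝ) :=
          Real.rpow_le_rpow_of_exponent_le hX1 (by rw [div_le_one (by linarith)]; exact hr1)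
      _ = X := Real.rpow_one _
  have h3 : (q : ℝ) ≤ X := hqX.trans h2
  have h4 : q ≤ X := by exact_mod_cast h3
  omega

/-- good integers up to `X ^ 3` have at most `3 r` prime factors -/
lemma good_few {X r m : ℕ} (hX : 2 ≤ X) (hr : 1 ≤ r) (hm : m ≠ 0) (hmX : m ≤ X ^ 3) (h : Good X r m) :
    m.primeFactorsList.length ≤ 3 * r := by
  have hX1 : (1 : ℝ) < X := by exact_mod_cast (by omega : 1 < X)
  have hr1 : (0 : ℝ) < r := by exact_mod_cast (by omega : 0 < r)
  refine Pool.Agent.Y879.GL.few_of_rough ((X : ℝ) ^ (1 / (r : ℝ))) (Real.one_lt_rpow hX1 (by positivity)) m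
    (3 * r) hm ?_ (fun q hq hqm => ?_)
  · rw [← Real.rpow_natCast, ← Real.rpow_mul (by positivity)]
    have e : 1 / (r : ℝ) * ((3 * r : ℕ) : ℝ) = ((3 : ℕ) : ℝ) := by
      push_cast
      field_simp
    rw [e, Real.rpow_natCast]
    exact_mod_cast hmX
  · by_contra hcon
    push Not at hcon
    exact h q hq hcon hqm

open Classical in
/-- the number of the good `m` in `(Z, Z + Y]` for which fewer than `l` of the integers in `[m - T, m)`
are good -/
noncomputable def Far (X r l T Z Y : ℕ) : ℕ :=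
  ((Ioc Z (Z + Y)).filter (fun m => Good X r m ∧
    ((Ico (m - T) m).filter (fun n => Good X r n)).card < l)).card

lemma Far_eq (X r l T Z Y : ℕ) : Far X r l T Z Y = Pool.Agent.R463.PS.Far idf X r l T Z Y := by
  classical
  unfold Far Pool.Agent.R463.PS.Far
  congr 1
  apply filter_congr
  intro m _
  rw [good_iff]
  have : (Ico (m - T) m).filter (fun n => Good X r n) = (Ico (m - T) m).filter (fun n => Sifted idf X r n) :=
    filter_congr fun n _ => good_iff X r n
  rw [this]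

/-- consecutive primes -/
def Consecutive (q q' : ℕ) : Prop := q.Prime ∧ q'.Prime ∧ q < q' ∧ ∀ p : ℕ, q < p → p < q' → ¬ p.Prime

lemma Consecutive.le {q q' : ℕ} (h : Consecutive q q') : q' ≤ 2 * q := by
  obtain ⟨h1, h2, h3, h4⟩ := h
  obtain ⟨p, hp, h5, h6⟩ := Nat.exists_prime_lt_and_le_two_mul q h1.ne_zero
  by_contra hcon
  exact h4 p h5 (by omega) hp

lemma Consecutive.ge {q q' : ℕ} (h : Consecutive q q') (hq : 3 ≤ q) : q + 2 ≤ q' := by
  obtain ⟨h1, h2, h3, h4⟩ := h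
  by_contra hcon
  have h5 : q' = q + 1 := by omega
  have h6 := h1.eq_two_or_odd
  have h7 := h2.eq_two_or_odd
  omega

open Classical in
/-- **The gap laws between consecutive prime squares.** Let `0 < θ ≤ 1`, `ε > 0`, `l₀`, `x₀`. There is `r₀`
such that for all `r ≥ r₀`, all large primes `q` and the next prime `q'` (good: without prime factor
`≤ q ^ (1 / r)`):
(1) every prime `p > q` is good, and every good `0 < m < q' ^ 2` has at most `3 r` prime factors;
(2) the number of the good integers between `q ^ 2` and `q' ^ 2` is `(q' ^ 2 - q ^ 2 - 1) V` up to `ε` times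
this;
(3) in every interval `(Z, Z + Y]` with `Y ≥ q ^ θ`, for instance in all the parts of that length of the
interval between `q ^ 2` and `q' ^ 2`, the number `Far` of the good `m` with fewer than `l` good integers in
`[m - T, m)` is the value `Y V ∑_{j < l} exp (- T V) (T V) ^ j / j!` for the Poisson process of density `V`,
up to `ε Y V`, for all `l ≤ l₀` and all `T`, and for all `l` and all `T ≤ x₀ / V`. -/
theorem result (θ : ℝ) (hθ : 0 < θ) (hθ1 : θ ≤ 1) (l₀ : ℕ) (x₀ ε : ℝ) (hε : 0 < ε) :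
    ∃ r₀ : ℕ, ∀ r : ℕ, r₀ ≤ r → ∃ q₀ : ℕ, ∀ q q' : ℕ, q₀ ≤ q → Consecutive q q' →
      ((∀ p : ℕ, p.Prime → q < p → Good q r p) ∧
        ∀ m : ℕ, m ≠ 0 → m < q' ^ 2 → Good q r m → m.primeFactorsList.length ≤ 3 * r) ∧
      |(({m ∈ Ioo (q ^ 2) (q' ^ 2) | Good q r m}.card : ℕ) : ℝ) - ((q' ^ 2 - q ^ 2 - 1 : ℕ) : ℝ) * V q r| ≤
        ε * (((q' ^ 2 - q ^ 2 - 1 : ℕ) : ℝ) * V q r) ∧
      ∀ Z Y : ℕ, (q : ℝ) ^ θ ≤ Y → ∀ l T : ℕ, (l ≤ l₀ ∨ T * V q r ≤ x₀) →
        |(Far q r l T Z Y : ℝ) - Y * V q r *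
          ∑ j ∈ range l, Real.exp (-(T * V q r)) * (T * V q r) ^ j / j.factorial| ≤
          ε * (Y * V q r) := by
  classical
  obtain ⟨r₀, hr₀, h⟩ := one_gaps θ hθ (max l₀ 1) x₀ ε hε
  refine ⟨r₀, fun r hr => ?_⟩
  obtain ⟨q₀, hq₀⟩ := eventually_atTop.1 (h r hr)
  refine ⟨max q₀ 4, fun q q' hq hc => ?_⟩
  have h1 := hq₀ q ((le_max_left _ _).trans hq)
  have h4 : 4 ≤ q := (le_max_right _ _).trans hq
  have hle := hc.le
  have hge := hc.ge (by omega)
  have hq1 : (1 : ℝ) ≤ q := by exact_mod_cast (by omega : 1 ≤ q)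
  refine ⟨⟨fun p hp hnp => good_prime (by omega) (by omega) hp hnp, fun m hm hmn hg =>
    good_few (by omega) (by omega) hm (hmn.le.trans ?_) hg⟩, ?_, ?_⟩
  · calc q' ^ 2 ≤ (2 * q) ^ 2 := Nat.pow_le_pow_left hle 2
      _ = 4 * q ^ 2 := by ring
      _ ≤ q * q ^ 2 := Nat.mul_le_mul_right _ h4
      _ = q ^ 3 := by ring
  · have hlen : q ^ 2 + 4 * q + 4 ≤ q' ^ 2 := by
      calc q ^ 2 + 4 * q + 4 = (q + 2) ^ 2 := by ring
        _ ≤ q' ^ 2 := Nat.pow_le_pow_left hge 2
    have hY : q ≤ q' ^ 2 - q ^ 2 - 1 := by omega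
    have h3 := h1 (q ^ 2) (q' ^ 2 - q ^ 2 - 1) (by
      calc (q : ℝ) ^ θ ≤ (q : ℝ) ^ (1 : ℝ) := Real.rpow_le_rpow_of_exponent_le hq1 hθ1
        _ = q := Real.rpow_one _
        _ ≤ _ := by exact_mod_cast hY) 1 0 (Or.inl (le_max_right _ _))
    rw [← V_eq, ← Far_eq] at h3
    have e1 : Far q r 1 0 (q ^ 2) (q' ^ 2 - q ^ 2 - 1) = {m ∈ Ioo (q ^ 2) (q' ^ 2) | Good q r m}.card := by
      unfold Far
      have e2 : Ioc (q ^ 2) (q ^ 2 + (q' ^ 2 - q ^ 2 - 1)) = Ioo (q ^ 2) (q' ^ 2) := by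
        ext m
        simp only [mem_Ioo, mem_Ioc]
        omega
      rw [e2]
      congr 1
      apply filter_congr
      intro m _
      simp
    rw [e1] at h3
    simpa using h3
  · intro Z Y hY l T hT
    have h3 := h1 Z Y hY l T (hT.imp (fun h => h.trans (le_max_left _ _)) (fun h => h))
    rwa [← V_eq, ← Far_eq] at h3

end Pool.Agent.Results.MP_739ba1_nt.GapLaws
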