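import Mathlib
import Pool.Agent.R463.NarLin

set_option autoImplicit false

/-!
# Narrow progressions in arbitrary sets of primes between consecutive prime squares

Almost all elements of every set of primes or almost primes in a part, of length at least `q`, of the interval
between the squares of the consecutive primes `q < q'` lie in narrow arithmetic progressions inside the set and
this part.
-/

namespace Pool.Agent.Results.MP_739ba1_nt.NarrowProgressions

open Finset Filter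

/-- The integers all prime factors of which are larger than `m ^ (1 / r)`. -/
def RoughAt (r : ℕ) : Set ℕ := {m | ∀ p : ℕ, p.Prime → p ∣ m → (m : ℝ) ^ (1 / (r : ℝ)) < (p : ℝ)}

/-- `m` is a term of an `l`-term arithmetic progression with difference at most `D`, all terms of which
are elements of `A` in the interval `(a, b]`. -/
def InProgression (A : Set ℕ) (l : ℕ) (D : ℝ) (a b m : ℕ) : Prop :=
  ∃ u d : ℕ, 1 ≤ d ∧ (d : ℝ) ≤ D ∧ (∀ i < l, u + i * d ∈ A ∧ a < u + i * d ∧ u + i * d ≤ b) ∧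
    ∃ i < l, m = u + i * d

lemma InProgression.mono {A : Set ℕ} {l : ℕ} {D D' : ℝ} {a b m : ℕ} (h : InProgression A l D a b m)
    (hD : D ≤ D') : InProgression A l D' a b m := by
  obtain ⟨u, d, h1, h2, h3⟩ := h
  exact ⟨u, d, h1, h2.trans hD, h3⟩

/-- all primes are in `RoughAt r` -/
lemma prime_mem (r : ℕ) (hr : 2 ≤ r) (q : ℕ) (hq : q.Prime) : q ∈ RoughAt r := by
  intro p hp hd
  have h1 : p = q := (Nat.prime_dvd_prime_iff_eq hp hq).1 hd
  have h2 : (1 : ℝ) < q := by exact_mod_cast hq.one_lt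
  have hr2 : (2 : ℝ) ≤ r := by exact_mod_cast hr
  rw [h1]
  have h5 : (1 / (r : ℝ)) < 1 := by
    rw [div_lt_one (by linarith)]
    linarith
  have := Real.rpow_lt_rpow_of_exponent_lt h2 h5
  rwa [Real.rpow_one] at this

open Classical in
/-- the general theorem for the form `m` -/
lemma narrow (θ : ℝ) (hθ : 0 < θ) (r : ℕ) (hr : 2 ≤ r) (l : ℕ) (hl : 2 ≤ l) (ε : ℝ) (hε : 0 < ε) :
    ∃ B : ℕ, ∀ᶠ X : ℕ in atTop, ∀ Y : ℕ, (X : ℝ) ^ θ ≤ Y → Y ≤ X →
      ∀ A : Set ℕ, A ⊆ RoughAt r →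
        (((Ioc X (X + Y)).filter (fun m : ℕ =>
          m ∈ A ∧ ¬ InProgression A l (Real.log X ^ B) X (X + Y) m)).card : ℝ) ≤
        ε * (Y / Real.log X) := by
  obtain ⟨B, hB⟩ := Pool.Agent.R463.NL.narrow_lin one_pos (fun _ : Fin 1 => 1) (fun _ => 0) (fun _ => one_pos)
    (fun _ => by rw [Nat.cast_one]; exact isCoprime_one_left) (fun i j _ _ => Subsingleton.elim i j) (fun p hp => ⟨1, fun _ h => by
      have h1 : (p : ℤ) ∣ ((1 : ℕ) : ℤ) := by simpa using h
      exact hp.one_lt.ne' (Nat.dvd_one.1 (Int.natCast_dvd_natCast.1 h1))⟩) θ hθ r hr l hl ε hε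
  refine ⟨B, ?_⟩
  filter_upwards [hB] with X hX Y hXY hYX A hA
  have h := hX Y hXY hYX A (fun m hm => by
    intro i p hp hd
    refine hA hm p hp ?_
    have h1 : (p : ℤ) ∣ (m : ℤ) := by simpa using hd
    exact_mod_cast h1)
  rw [pow_one] at h
  exact h

/-- consecutive primes -/
def Consecutive (q q' : ℕ) : Prop := q.Prime ∧ q'.Prime ∧ q < q' ∧ ∀ p : ℕ, q < p → p < q' → ¬ p.Prime

lemma Consecutive.le {q q' : ℕ} (h : Consecutive q q') : q' ≤ 2 * q := by
  obtain ⟨h1, h2, h3, h4⟩ := h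
  obtain ⟨p, hp, h5, h6⟩ := Nat.exists_prime_lt_and_le_two_mul q h1.ne_zero
  by_contra hcon
  exact h4 p h5 (by omega) hp

lemma Consecutive.ge {q q' : ℕ} (h : Consecutive q q') (hq : 3 ≤ q) : q + 2 ≤ q' := by
  obtain ⟨h1, h2, h3, h4⟩ := h
  by_contra hcon
  have h5 : q' = q + 1 := by omega
  have h6 := h1.eq_two_or_odd
  have h7 := h2.eq_two_or_odd
  omega

open Classical in
/-- **Narrow progressions between consecutive prime squares.** (1) All primes belong to `RoughAt r`, for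
`r ≥ 2`. (2) Let `r, l ≥ 2` and `ε > 0`. There is `B` such that for all large primes `q`, the next prime `q'`,
all `u` and `Y` with `q ^ 2 ≤ u`, `u + Y < q' ^ 2`, `q ≤ Y ≤ u` (for instance `u = q ^ 2` and `Y = 4 q + 3`) and
EVERY set `A` of integers `m` without prime factor `≤ m ^ (1 / r)`, for instance every set of primes: all but
at most `ε Y / log q` of the elements of `A` in `(u, u + Y]` are terms of `l`-term arithmetic progressions,
contained in the part of `A` in `(u, u + Y]`, with difference at most `(log q) ^ B`. -/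
theorem result : (∀ r : ℕ, 2 ≤ r → ∀ q : ℕ, q.Prime → q ∈ RoughAt r) ∧
    ∀ r : ℕ, 2 ≤ r → ∀ l : ℕ, 2 ≤ l → ∀ ε : ℝ, 0 < ε → ∃ B q₀ : ℕ, ∀ q q' : ℕ, q₀ ≤ q → Consecutive q q' →
      ∀ u Y : ℕ, q ^ 2 ≤ u → u + Y < q' ^ 2 → q ≤ Y → Y ≤ u → ∀ A : Set ℕ, A ⊆ RoughAt r →
        (((Ioc u (u + Y)).filter (fun m : ℕ =>
          m ∈ A ∧ ¬ InProgression A l (Real.log q ^ B) u (u + Y) m)).card : ℝ) ≤
        ε * (Y / Real.log q) := by
  refine ⟨prime_mem, fun r hr l hl ε hε => ?_⟩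
  obtain ⟨B, hB⟩ := narrow (1 / 4) (by norm_num) r hr l hl ε hε
  obtain ⟨X₀, hX₀⟩ := eventually_atTop.1 hB
  have hlog : ∀ᶠ n : ℕ in atTop, (4 : ℝ) ≤ Real.log n :=
    (Real.tendsto_log_atTop.comp tendsto_natCast_atTop_atTop).eventually_ge_atTop 4
  obtain ⟨X₁, hX₁⟩ := eventually_atTop.1 hlog
  refine ⟨2 * B, max (max X₀ X₁) 4, fun q q' hq hcs u Y hu huY hqY hYu A hA => ?_⟩
  have hq4 : 4 ≤ q := (le_max_right _ _).trans hq
  have hqX : X₀ ≤ q := ((le_max_left _ _).trans (le_max_left _ _)).trans hq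
  have h1 : (4 : ℝ) ≤ Real.log q := hX₁ q (((le_max_right _ _).trans (le_max_left _ _)).trans hq)
  have hqu : q ≤ u := by nlinarith
  have h5 : u ≤ q ^ 4 := by
    calc u ≤ q' ^ 2 := by omega
      _ ≤ (2 * q) ^ 2 := Nat.pow_le_pow_left hcs.le 2
      _ = 4 * q ^ 2 := by ring
      _ ≤ q ^ 2 * q ^ 2 := by
          apply Nat.mul_le_mul_right
          nlinarith
      _ = q ^ 4 := by ring
  have h6 : (u : ℝ) ≤ (q : ℝ) ^ (4 : ℝ) := by
    have : (u : ℝ) ≤ (q : ℝ) ^ 4 := by exact_mod_cast h5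
    rwa [← Real.rpow_natCast] at this
  have hq0 : (0 : ℝ) < q := by exact_mod_cast (by omega : 0 < q)
  have hu0 : (0 : ℝ) < u := by exact_mod_cast (by omega : 0 < u)
  have hqu' : (q : ℝ) ≤ u := by exact_mod_cast hqu
  have hlogu : Real.log q ≤ Real.log u := Real.log_le_log hq0 hqu'
  have hlogu4 : Real.log u ≤ 4 * Real.log q := by
    calc Real.log u ≤ Real.log ((q : ℝ) ^ (4 : ℝ)) := Real.log_le_log hu0 h6
      _ = 4 * Real.log q := by rw [Real.log_rpow hq0]
  have h7 := hX₀ u (hqX.trans hqu) Y (by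
    calc (u : ℝ) ^ ((1 : ℝ) / 4) ≤ ((q : ℝ) ^ (4 : ℝ)) ^ ((1 : ℝ) / 4) :=
          Real.rpow_le_rpow (Nat.cast_nonneg _) h6 (by norm_num)
      _ = q := by
          rw [← Real.rpow_mul (Nat.cast_nonneg _)]
          norm_num
      _ ≤ Y := by exact_mod_cast hqY) hYu A hA
  have h8 : Real.log u ^ B ≤ Real.log q ^ (2 * B) := by
    have h9 : Real.log u ≤ Real.log q ^ 2 := by nlinarith
    calc Real.log u ^ B ≤ (Real.log q ^ 2) ^ B := pow_le_pow_left₀ (by linarith) h9 B
      _ = Real.log q ^ (2 * B) := by rw [pow_mul]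
  have h9 : (((Ioc u (u + Y)).filter (fun m : ℕ =>
          m ∈ A ∧ ¬ InProgression A l (Real.log q ^ (2 * B)) u (u + Y) m)).card : ℝ) ≤
      (((Ioc u (u + Y)).filter (fun m : ℕ =>
          m ∈ A ∧ ¬ InProgression A l (Real.log u ^ B) u (u + Y) m)).card : ℝ) := by
    exact_mod_cast card_le_card (fun m hm => by
      rw [mem_filter] at hm ⊢
      exact ⟨hm.1, hm.2.1, fun h => hm.2.2 (h.mono h8)⟩)
  refine h9.trans (h7.trans ?_)
  apply mul_le_mul_of_nonneg_left _ hε.le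
  exact div_le_div_of_nonneg_left (Nat.cast_nonneg _) (by linarith) hlogu

end Pool.Agent.Results.MP_739ba1_nt.NarrowProgressions
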