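import Mathlib
import Pool.Agent.R463.PrReg

set_option autoImplicit false

/-!
# Regular points of arbitrary sets of primes between consecutive prime squares

Between the squares of consecutive primes almost all elements of EVERY set of primes see the set in all windows
around them with the right order of magnitude, and at all scales with few exceptions with a constant density on
both sides.
-/

namespace Pool.Agent.Results.MP_739ba1_nt.RegularPoints

open Finset Filter
open Pool.Agent.R463.PrReg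

/-- consecutive primes -/
def Consecutive (q q' : ℕ) : Prop := q.Prime ∧ q'.Prime ∧ q < q' ∧ ∀ p : ℕ, q < p → p < q' → ¬ p.Prime

lemma Consecutive.le {q q' : ℕ} (h : Consecutive q q') : q' ≤ 2 * q := by
  obtain ⟨h1, h2, h3, h4⟩ := h
  obtain ⟨p, hp, h5, h6⟩ := Nat.exists_prime_lt_and_le_two_mul q h1.ne_zero
  by_contra hcon
  exact h4 p h5 (by omega) hp

lemma Consecutive.ge {q q' : ℕ} (h : Consecutive q q') (hq : 3 ≤ q) : q + 2 ≤ q' := by
  obtain ⟨h1, h2, h3, h4⟩ := h
  by_contra hcon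
  have h5 : q' = q + 1 := by omega
  have h6 := h1.eq_two_or_odd
  have h7 := h2.eq_two_or_odd
  omega

/-- The integers all prime factors of which are larger than `m ^ (1 / r)`. -/
def RoughAt (r : ℕ) : Set ℕ := {m | ∀ p : ℕ, p.Prime → p ∣ m → (m : ℝ) ^ (1 / (r : ℝ)) < (p : ℝ)}

/-- all primes are in `RoughAt r` -/
lemma prime_mem (r : ℕ) (hr : 2 ≤ r) (q : ℕ) (hq : q.Prime) : q ∈ RoughAt r := by
  intro p hp hd
  have h1 : p = q := (Nat.prime_dvd_prime_iff_eq hp hq).1 hd
  have h2 : (1 : ℝ) < q := by exact_mod_cast hq.one_lt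
  have hr2 : (2 : ℝ) ≤ r := by exact_mod_cast hr
  rw [h1]
  have h5 : (1 / (r : ℝ)) < 1 := by
    rw [div_lt_one (by linarith)]
    linarith
  have := Real.rpow_lt_rpow_of_exponent_lt h2 h5
  rwa [Real.rpow_one] at this

open Classical in
/-- **Regular points between consecutive prime squares.** There is `r₀` such that for all `r ≥ r₀` all primes
belong to `RoughAt r`, and for all `ε > 0` there is `c > 0`, and for all `δ > 0` there is `B`, such that for all
large primes `q`, the next prime `q'`, all `u` and `Y` with `q ^ 2 ≤ u`, `u + Y < q' ^ 2`, `q ≤ Y ≤ u / 2` (for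
instance `u = q ^ 2` and `Y = 4 q + 3`) and EVERY set `A` of integers `m` without prime factor `≤ m ^ (1 / r)`,
for instance every set of primes: at most `ε Y / log u` elements `m` of `A` in `(u, u + Y]` are not regular
points of `A`. Regular point: (1) all intervals `(m - s, m + t]` with `s, t ≤ Y` and `c (s + t) ≥ log u` contain
between `c (s + t) / log u` and `(s + t) / (c log u)` elements of `A`; (2) for all scales `log u ≤ 2 ^ j ≤ Y`
with at most `B` exceptions there is a proportion `c ≤ lam ≤ 1 / c` such that all `(m - s, m + t]`,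
`s, t ≤ 2 ^ j`, contain `lam (s + t) / log u` elements of `A`, up to `δ 2 ^ j / log u`. -/
theorem result : ∃ r₀ : ℕ, ∀ r : ℕ, r₀ ≤ r → (∀ p : ℕ, p.Prime → p ∈ RoughAt r) ∧
    ∀ ε : ℝ, 0 < ε → ∃ c : ℝ, 0 < c ∧ ∀ δ : ℝ, 0 < δ →
    ∃ B q₀ : ℕ, ∀ q q' : ℕ, q₀ ≤ q → Consecutive q q' → ∀ u Y : ℕ, q ^ 2 ≤ u → u + Y < q' ^ 2 → q ≤ Y →
      2 * Y ≤ u → ∀ A : Set ℕ, A ⊆ RoughAt r →
        (((Ioc u (u + Y)).filter (fun m => m ∈ A ∧ ¬ Regular A c δ B u Y m)).card : ℝ) ≤
          ε * Y / Real.log u := by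
  obtain ⟨r₀, hr₀, h⟩ := reg (1 / 4) (by norm_num) (by norm_num)
  refine ⟨r₀, fun r hr => ⟨prime_mem r (hr₀.trans hr), fun ε hε => ?_⟩⟩
  obtain ⟨c, hc, h1⟩ := h r hr ε hε
  refine ⟨c, hc, fun δ hδ => ?_⟩
  obtain ⟨B, h2⟩ := h1 δ hδ
  obtain ⟨X₀, hX₀⟩ := eventually_atTop.1 h2
  refine ⟨B, max X₀ 4, fun q q' hq hcs u Y hu huY hqY hYu A hA => ?_⟩
  have hq4 : 4 ≤ q := (le_max_right _ _).trans hq
  have hqX : X₀ ≤ q := (le_max_left _ _).trans hq
  have hqu : q ≤ u := by nlinarith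
  refine hX₀ u (hqX.trans hqu) Y ?_ hYu A (fun m hm => hA hm)
  have h5 : u ≤ q ^ 4 := by
    calc u ≤ q' ^ 2 := by omega
      _ ≤ (2 * q) ^ 2 := Nat.pow_le_pow_left hcs.le 2
      _ = 4 * q ^ 2 := by ring
      _ ≤ q ^ 2 * q ^ 2 := by
          apply Nat.mul_le_mul_right
          nlinarith
      _ = q ^ 4 := by ring
  have h6 : (u : ℝ) ≤ (q : ℝ) ^ (4 : ℝ) := by
    have : (u : ℝ) ≤ (q : ℝ) ^ 4 := by exact_mod_cast h5
    rwa [← Real.rpow_natCast] at this
  calc (u : ℝ) ^ ((1 : ℝ) / 4) ≤ ((q : ℝ) ^ (4 : ℝ)) ^ ((1 : ℝ) / 4) :=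
        Real.rpow_le_rpow (Nat.cast_nonneg _) h6 (by norm_num)
    _ = q := by
        rw [← Real.rpow_mul (Nat.cast_nonneg _)]
        norm_num
    _ ≤ Y := by exact_mod_cast hqY

end Pool.Agent.Results.MP_739ba1_nt.RegularPoints
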